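import Pool.Agent.MP_5c28a4_al.H89.Spec

set_option autoImplicit false

namespace Pool.Agent.MP_5c28a4_al.H74

open Pool.Agent.Burnside6 Pool.Agent.MP_5c28a4_al.H89

variable {G : Type} [Group G]

/-- an element conjugating a nonzero power of `w` to a power of `w` commutes with `w` -/
theorem comm_of_conj {X : Nm G} {E : ℕ} (hX : TF X E) {x w : G} {a b : ℤ} (ha : a ≠ 0)
    (h : x * w ^ a * x⁻¹ = w ^ b) : Commute x w := by
  refine hX.comm_of_zpow ha (hX.csab _ _ ?_)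
  rw [h]
  exact (Commute.refl w).zpow_zpow b a

theorem zpow_inj {X : Nm G} {E : ℕ} (hX : TF X E) {w : G} (hw : w ≠ 1) {a : ℤ} (h : w ^ a = 1) :
    a = 0 := by
  by_contra h1
  exact hX.zpow_ne hw h1 h

theorem mtch : MatchStmt := by
  intro G _ X E hX U U' q q' J J' ε ε' hU hU' hq hq' hJ hc
  obtain ⟨w, -, hw⟩ := hX.root hU
  obtain ⟨f, hf⟩ := Subgroup.mem_zpowers_iff.1 (hw U (Commute.refl U))
  have hw1 : w ≠ 1 := by
    rintro rfl
    exact hU (by rw [← hf, one_zpow])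
  have hf0 : f ≠ 0 := by
    rintro rfl
    exact hU (by rw [← hf, zpow_zero])
  have cU : ∀ a : G, Commute a w → Commute a U := fun a ha => hf ▸ ha.zpow_right f
  have h1 : ∀ i, i < 13 → ∃ j : ℤ,
      w ^ j = (q i)⁻¹ * q' i * U' * ((q i)⁻¹ * q' i)⁻¹ := by
    intro i hi
    refine Subgroup.mem_zpowers_iff.1 (hw _ ?_)
    have h2 := commute_conj_iff.1 (hc i hi)
    have e : (q i)⁻¹ * q' i * U' * ((q i)⁻¹ * q' i)⁻¹ =
        (q i)⁻¹ * (q' i * U' * (q' i)⁻¹) * q i := by group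
    rw [e]
    exact h2.symm
  obtain ⟨y, hy⟩ : ∃ y, y = (q 0)⁻¹ * q' 0 := ⟨_, rfl⟩
  obtain ⟨f', hf'⟩ := h1 0 (by norm_num)
  rw [← hy] at hf'
  have hf0' : f' ≠ 0 := by
    rintro rfl
    apply hU'
    rw [zpow_zero] at hf'
    calc U' = y⁻¹ * (y * U' * y⁻¹) * y := by group
      _ = 1 := by rw [← hf']; group
  have h2 : ∀ i, ∃ j : ℤ, i < 13 → (q i)⁻¹ * q' i = w ^ j * y := by
    intro i
    by_cases hi : i < 13
    · obtain ⟨j, hj⟩ := h1 i hi
      have h3 : Commute ((q i)⁻¹ * q' i * y⁻¹) w := by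
        refine comm_of_conj hX hf0' (b := j) ?_
        rw [hf', hj]; group
      obtain ⟨j', hj'⟩ := Subgroup.mem_zpowers_iff.1 (hw _ (cU _ h3))
      exact ⟨j', fun _ => by rw [hj']; group⟩
    · exact ⟨0, fun h => absurd h hi⟩
  choose s hs using h2
  have hs0 : s 0 = 0 := by
    have h3 := hs 0 (by norm_num)
    rw [← hy] at h3
    refine zpow_inj hX hw1 ?_
    calc w ^ s 0 = w ^ s 0 * y * y⁻¹ := by group
      _ = 1 := by rw [← h3]; group
  have hrec : ∀ i, i < 12 → y * J' i * y⁻¹ =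
      w ^ (-(s i + f' * ε' i - f * ε i)) * J i * w ^ s (i + 1) := by
    intro i hi
    have a1 := hs i (by omega)
    have a2 := hs (i + 1) (by omega)
    rw [hq i hi, hq' i hi] at a2
    have e1 : U ^ ε i = w ^ (f * ε i) := by rw [← hf, zpow_mul]
    have e2 : U' ^ ε' i = y⁻¹ * w ^ (f' * ε' i) * y := by
      rw [zpow_mul, hf', conj_zpow]; group
    have e3 : q' i = q i * (w ^ s i * y) := by rw [← a1]; group
    rw [e1, e2, e3] at a2
    have e4 : w ^ s (i + 1) = (q i * w ^ (f * ε i) * J i)⁻¹ *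
        (q i * (w ^ s i * y) * (y⁻¹ * w ^ (f' * ε' i) * y) * J' i) * y⁻¹ := by
      rw [a2]; group
    rw [e4]; group
  refine ⟨w, y, f, f', s, hf0, hf0', hf.symm, hf'.symm, hs0, hs, hrec, ?_⟩
  intro i i' hi hi' e1 e2
  have a1 := hrec i hi
  have a2 := hrec i' hi'
  rw [← e1, ← e2, a1] at a2
  generalize s i + f' * ε' i - f * ε i = a at *
  generalize s i' + f' * ε' i' - f * ε i' = a' at *
  have e3 : (J i)⁻¹ * w ^ (a' - a) * (J i)⁻¹⁻¹ = w ^ (s (i' + 1) - s (i + 1)) := by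
    calc _ = (J i)⁻¹ * w ^ a' * (w ^ (-a) * J i * w ^ s (i + 1)) * w ^ (-s (i + 1)) := by group
      _ = _ := by rw [a2]; group
  have e4 : a' - a = 0 := by
    by_contra h3
    exact hJ i hi (cU _ (by simpa using (comm_of_conj hX h3 e3).inv_left))
  rw [e4, zpow_zero, mul_one, mul_inv_cancel] at e3
  have e5 := zpow_inj hX hw1 e3.symm
  constructor <;> omega

theorem Q_succ (T : Sys G) (l : T.Λ) (s : ℕ) :
    T.Q l (s + 1) = T.Q l s * T.U ^ T.ex l s * T.J l s := by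
  unfold Sys.Q Sys.J Sys.ex
  rw [prd_succ]
  unfold bval
  simp only [mul_assoc]

/-- matching of two block systems along thirteen consecutive blocks -/
theorem sys_match {X : Nm G} {E : ℕ} (hX : TF X E) (T T' : Sys G) (η η' : G) (l : T.Λ)
    (l' : T'.Λ) (s s' : ℕ) (hU : T.U ≠ 1) (hU' : T'.U ≠ 1)
    (nc : ∀ i, i < 12 → ¬ Commute (T.J l (s + i)) T.U)
    (hc : ∀ i, i < 13 → Commute (η * T.Q l (s + i) * T.U * (η * T.Q l (s + i))⁻¹)
      (η' * T'.Q l' (s' + i) * T'.U * (η' * T'.Q l' (s' + i))⁻¹))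
    (hp : ∀ i, i < 4 → T.J l (s + i) = T.J l (s + (i + 8)))
    (hp' : ∀ i, i < 4 → T'.J l' (s' + i) = T'.J l' (s' + (i + 8))) :
    ∃ (w y : G) (f f' : ℤ) (σ : ℕ → ℤ), f ≠ 0 ∧ f' ≠ 0 ∧ T.U = w ^ f ∧ y * T'.U * y⁻¹ = w ^ f' ∧
      σ 0 = 0 ∧ (η * T.Q l s)⁻¹ * (η' * T'.Q l' s') = y ∧
      y * T'.J l' s' * y⁻¹ =
        w ^ (-(f' * T'.ex l' s' - f * T.ex l s)) * T.J l s * w ^ σ 1 ∧
      (T.J l s = T.J l (s + 1) → T'.J l' s' = T'.J l' (s' + 1) →
        f' * T'.ex l' s' - f * T.ex l s = σ 1 + f' * T'.ex l' (s' + 1) - f * T.ex l (s + 1)) ∧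
      ∀ i, i < 3 → f' * (T'.ex l' (s' + (i + 9)) - T'.ex l' (s' + (i + 1))) =
        f * (T.ex l (s + (i + 9)) - T.ex l (s + (i + 1))) := by
  obtain ⟨w, y, f, f', σ, h1, h2, h3, h4, h5, h6, h7, h8⟩ := mtch G X E hX T.U T'.U
    (fun i => η * T.Q l (s + i)) (fun i => η' * T'.Q l' (s' + i)) (fun i => T.J l (s + i))
    (fun i => T'.J l' (s' + i)) (fun i => T.ex l (s + i)) (fun i => T'.ex l' (s' + i)) hU hU'
    (fun i _ => by
      show η * T.Q l (s + i + 1) = _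
      rw [Q_succ]; simp only [mul_assoc])
    (fun i _ => by
      show η' * T'.Q l' (s' + i + 1) = _
      rw [Q_succ]; simp only [mul_assoc]) nc hc
  refine ⟨w, y, f, f', σ, h1, h2, h3, h4, h5, ?_, ?_, ?_, ?_⟩
  · have := h6 0 (by norm_num)
    rw [h5, zpow_zero, one_mul] at this
    exact this
  · have := h7 0 (by norm_num)
    rw [h5, zero_add] at this
    exact this
  · intro a b
    have := (h8 0 1 (by norm_num) (by norm_num) a b).1
    rw [h5, zero_add] at this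
    exact this
  · intro i hi
    have a1 := (h8 i (i + 8) (by omega) (by omega) (hp i (by omega)) (hp' i (by omega))).2
    have a2 := (h8 (i + 1) (i + 1 + 8) (by omega) (by omega) (hp (i + 1) (by omega))
      (hp' (i + 1) (by omega))).1
    have e1 : i + 8 + 1 = i + 9 := rfl
    have e2 : i + 1 + 8 = i + 9 := rfl
    rw [e1] at a1
    rw [e2, a1] at a2
    linear_combination -a2

/-! formulas for the two systems -/

theorem hJ (k m : ℕ) (g h : G) (l : Fin k) (b : Bool) (s : ℕ) (hs : s < 59) :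
    (hSys k m g h).J (l, b) s = if b then g else g⁻¹ := by
  have h1 : s ≠ 59 := by omega
  have h2 : 59 - s ≠ 0 := by omega
  have h3 : 59 - (s + 1) ≠ 59 := by omega
  cases b
  · change (if 59 - s = 0 then g ^ (l.1 + 1) else 1)⁻¹ *
      (if 59 - (s + 1) = 59 then g ^ (l.1 + 1) else g)⁻¹ = g⁻¹
    rw [if_neg h2, if_neg h3, inv_one, one_mul]
  · change (if s = 59 then g ^ (l.1 + 1) else g) *
      (if s + 1 = 0 then g ^ (l.1 + 1) else 1) = g
    rw [if_neg h1, if_neg (Nat.succ_ne_zero s), mul_one]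

theorem hEx (k m : ℕ) (g h : G) (l : Fin k) (b : Bool) (s : ℕ) (hs : s < 60) :
    (hSys k m g h).ex (l, b) s = if b then (m : ℤ) + (60 * (l.1 : ℤ) + s + 1) ^ 3
      else -((m : ℤ) + (60 * (l.1 : ℤ) + 60 - s) ^ 3) := by
  cases b
  · change -((m + (60 * l.1 + (59 - s) + 1) ^ 3 : ℕ) : ℤ) = -((m : ℤ) + (60 * (l.1 : ℤ) + 60 - s) ^ 3)
    have h1 : ((59 - s : ℕ) : ℤ) = 59 - s := by omega
    push_cast
    rw [h1]; ring
  · change ((m + (60 * l.1 + s + 1) ^ 3 : ℕ) : ℤ) = (m : ℤ) + (60 * (l.1 : ℤ) + s + 1) ^ 3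
    push_cast; ring

theorem pat_add (g h : G) (i : ℕ) : pat g h (i + 8) = pat g h i := by
  unfold pat; rw [Nat.add_mod_right]

theorem tW_lt (g h : G) {i : ℕ} (hi : i < 8 * h0) : tW g h i = pat g h i := by
  unfold tW; rw [if_pos hi]

theorem rJ (l : Law) (g h : G) (b : Bool) (s i : ℕ) (h4 : 4 ≤ s) (hs : s + 17 ≤ hh) (hi : i < 4) :
    (rSys l g h).J b (s + i) = (rSys l g h).J b (s + (i + 8)) := by
  have e := hh_eq
  cases b
  · change (1 : G)⁻¹ * (tW g h (hh - 1 - (s + i + 1)))⁻¹ =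
      (1 : G)⁻¹ * (tW g h (hh - 1 - (s + (i + 8) + 1)))⁻¹
    rw [tW_lt g h (by omega), tW_lt g h (by omega), ← pat_add g h (hh - 1 - (s + (i + 8) + 1))]
    have : hh - 1 - (s + i + 1) = hh - 1 - (s + (i + 8) + 1) + 8 := by omega
    rw [this]
  · change tW g h (s + i) * 1 = tW g h (s + (i + 8)) * 1
    rw [tW_lt g h (by omega), tW_lt g h (by omega), ← add_assoc, pat_add]

theorem rEx (l : Law) (g h : G) (b : Bool) (s : ℕ) (hs : s < hh) :
    (rSys l g h).ex b s = if b then (l.n : ℤ) + ((l.code : ℤ) * hh + s + 1) ^ 2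
      else -((l.n : ℤ) + ((l.code : ℤ) * hh + hh - s) ^ 2) := by
  cases b
  · change -((l.n + (l.code * hh + (hh - 1 - s) + 1) ^ 2 : ℕ) : ℤ) =
      -((l.n : ℤ) + ((l.code : ℤ) * hh + hh - s) ^ 2)
    have h1 : ((hh - 1 - s : ℕ) : ℤ) = hh - 1 - s := by omega
    push_cast
    rw [h1]; ring
  · change ((l.n + (l.code * hh + s + 1) ^ 2 : ℕ) : ℤ) =
      (l.n : ℤ) + ((l.code : ℤ) * hh + s + 1) ^ 2
    push_cast; ring

/-- differences of the exponents of `hSys` -/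
theorem hD (k m : ℕ) (g h : G) (l : Fin k) (b : Bool) (s i : ℕ) (hs : s + 17 ≤ 60) (hi : i < 3) :
    (hSys k m g h).ex (l, b) (s + (i + 9)) - (hSys k m g h).ex (l, b) (s + (i + 1)) =
      24 * ((if b then 60 * (l.1 : ℤ) + s + 1 else -(60 * (l.1 : ℤ) + 60 - s)) + i + 1) ^ 2 +
      192 * ((if b then 60 * (l.1 : ℤ) + s + 1 else -(60 * (l.1 : ℤ) + 60 - s)) + i + 1) + 512 := by
  rw [hEx k m g h l b _ (by omega), hEx k m g h l b _ (by omega)]
  cases b
  · simp only [Bool.false_eq_true, if_false]; push_cast; ring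
  · simp only [if_true]; push_cast; ring

/-- differences of the exponents of `rSys` -/
theorem rD (l : Law) (g h : G) (b : Bool) (s : ℕ) (hs : s + 17 ≤ hh) : ∃ a c : ℤ, ∀ i : ℕ, i < 3 →
    (rSys l g h).ex b (s + (i + 9)) - (rSys l g h).ex b (s + (i + 1)) = a * i + c := by
  cases b
  · refine ⟨-16, 16 * ((l.code : ℤ) * hh + hh - s) - 80, fun i hi => ?_⟩
    rw [rEx l g h _ _ (by omega), rEx l g h _ _ (by omega)]
    simp only [Bool.false_eq_true, if_false]; push_cast; ring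
  · refine ⟨16, 16 * ((l.code : ℤ) * hh + s + 1) + 80, fun i hi => ?_⟩
    rw [rEx l g h _ _ (by omega), rEx l g h _ _ (by omega)]
    simp only [if_true]; push_cast; ring

theorem up_num {x : ℝ} {B : ℕ} (h1 : x ≤ B) (h2 : cT + 2 ≤ B) :
    2 * x + (cT : ℝ) + 2 ≤ ((3 * B : ℕ) : ℝ) := by
  have h3 : ((cT + 2 : ℕ) : ℝ) ≤ B := by exact_mod_cast h2
  push_cast at h3 ⊢
  linarith

theorem B_ge {B : ℕ} (h2 : cT + 2 ≤ B) : 100 ≤ B := by
  unfold cT at h2; omega

theorem hhS (AM : AMStmt) (HS : HSysStmt) : HHStmt := by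
  intro G _ X E hX k m g h z B hk hm hB h1 h2 h3 t ht
  obtain ⟨hG, hV⟩ := HS G k m g h hk
  obtain ⟨hV, hUp⟩ := hV X E hX hm z 1 hB.dg
  have vis := hV 99998 hB.nc hB.de (by push_cast; linarith)
  have up := hUp cT (3 * B) hB.tame (by have := up_num h2 h3; push_cast at this ⊢; linarith)
  have hB' := B_ge h3
  obtain ⟨η, hη, η', hη', ⟨l, b⟩, ⟨l', b'⟩, s, s', a1, a2, a3, a4, hc⟩ := AM G X E hX _ _ _ _ z z t 1
    99998 (3 * B) (500 * B) hG hG vis vis (by norm_num) up (by omega) ht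
  change s + 17 ≤ 60 at a2
  change s' + 17 ≤ 60 at a4
  obtain ⟨w, y, f, f', σ, b1, b2, b3, b4, -, b6, b7, b8, b9⟩ := sys_match hX (hSys k m g h)
    (hSys k m g h) η (t * η') (l, b) (l', b') s s' vis.ne vis.ne
    (fun i hi => vis.nc _ _ (by change s + i + 1 < 60; omega)) hc
    (fun i hi => by rw [hJ k m g h l b _ (by omega), hJ k m g h l b _ (by omega)])
    (fun i hi => by rw [hJ k m g h l' b' _ (by omega), hJ k m g h l' b' _ (by omega)])
  have c0 := b9 0 (by norm_num)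
  have c1 := b9 1 (by norm_num)
  have c2 := b9 2 (by norm_num)
  rw [hD k m g h l b s _ a2 (by norm_num), hD k m g h l' b' s' _ a4 (by norm_num)] at c0 c1 c2
  obtain ⟨A, hA⟩ : ∃ A : ℤ, A = if b then 60 * (l.1 : ℤ) + s + 1 else -(60 * (l.1 : ℤ) + 60 - s) :=
    ⟨_, rfl⟩
  obtain ⟨A', hA'⟩ : ∃ A : ℤ,
    A = if b' then 60 * (l'.1 : ℤ) + s' + 1 else -(60 * (l'.1 : ℤ) + 60 - s') := ⟨_, rfl⟩
  rw [← hA, ← hA'] at c0 c1 c2
  push_cast at c0 c1 c2
  have e1 : f' = f := by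
    have : (48 : ℤ) * (f' - f) = 0 := by linear_combination c0 - 2 * c1 + c2
    omega
  subst e1
  have e2 : A' = A := by
    have : f' * (48 * (A' - A)) = 0 := by linear_combination c1 - c0
    have := (mul_eq_zero.1 this).resolve_left b1
    omega
  have e3 : b' = b ∧ l'.1 = l.1 ∧ s' = s := by
    rw [hA, hA'] at e2
    cases b <;> cases b' <;> simp only [Bool.false_eq_true, if_false, if_true] at e2
    · refine ⟨rfl, ?_⟩; omega
    · exfalso; omega
    · exfalso; omega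
    · refine ⟨rfl, ?_⟩; omega
  obtain ⟨rfl, e4, rfl⟩ := e3
  obtain rfl : l' = l := Fin.ext e4
  have d1 : (hSys k m g h).J (l', b') s' = (hSys k m g h).J (l', b') (s' + 1) := by
    rw [hJ k m g h l' b' _ (by omega), hJ k m g h l' b' _ (by omega)]
  have e5 : σ 1 = 0 := by
    have := b8 d1 d1
    omega
  rw [e5, sub_self, neg_zero, zpow_zero, one_mul, mul_one] at b7
  have e6 : y = 1 := by
    by_contra hy
    refine vis.nc (l', b') s' (by change s' + 1 < 60; omega) (hX.csaa y _ _ hy ?_ ?_)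
    · exact (mul_inv_eq_iff_eq_mul.1 b7).symm
    · rw [← b3] at b4
      exact (mul_inv_eq_iff_eq_mul.1 b4).symm
  rw [e6, inv_mul_eq_one, mul_left_inj] at b6
  have e7 : t = η * η'⁻¹ := by rw [b6]; group
  rw [e7]
  exact mul_mem hη (inv_mem hη')

theorem hrS (AM : AMStmt) (HS : HSysStmt) (RS : RSysStmt) : HRStmt := by
  intro G _ X E hX k m g h z l g' h' z' t B hk hm hB h1 hn hN h2 h3 h4 ht
  obtain ⟨hG, hV⟩ := HS G k m g h hk
  obtain ⟨hV, -⟩ := hV X E hX hm z 1 hB.dg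
  have vis := hV 99998 hB.nc hB.de (by push_cast; linarith)
  obtain ⟨rG, rV⟩ := RS G l g' h'
  obtain ⟨rV, rUp, -⟩ := rV X E hX hn z'
  have vis' := rV 99998 hN.dg hN.dh hN.dV hN.ng hN.nh (by push_cast; linarith)
  have up := rUp (3 * B) hN (up_num h3 h4)
  have hB' := B_ge h4
  obtain ⟨η, -, η', -, b, ⟨l', b'⟩, s, s', a1, a2, a3, a4, hc⟩ := AM G X E hX _ _ _ _ z' z t⁻¹ 1
    99998 (3 * B) (1000 * B) rG hG vis' vis (by norm_num) up (by omega) ht.symm
  change s + 17 ≤ hh at a2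
  change s' + 17 ≤ 60 at a4
  obtain ⟨w, y, f, f', σ, -, b2, -, -, -, -, -, -, b9⟩ := sys_match hX (rSys l g' h')
    (hSys k m g h) η (t⁻¹ * η') b (l', b') s s' vis'.ne vis.ne
    (fun i hi => vis'.nc _ _ (by change s + i + 1 < hh; omega)) hc
    (fun i hi => rJ l g' h' b s i a1 a2 hi)
    (fun i hi => by rw [hJ k m g h l' b' _ (by omega), hJ k m g h l' b' _ (by omega)])
  obtain ⟨a, c, hac⟩ := rD l g' h' b s a2
  have c0 := b9 0 (by norm_num)
  have c1 := b9 1 (by norm_num)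
  have c2 := b9 2 (by norm_num)
  rw [hac _ (by norm_num), hD k m g h l' b' s' _ a4 (by norm_num)] at c0 c1 c2
  obtain ⟨A', hA'⟩ : ∃ A : ℤ,
    A = if b' then 60 * (l'.1 : ℤ) + s' + 1 else -(60 * (l'.1 : ℤ) + 60 - s') := ⟨_, rfl⟩
  rw [← hA'] at c0 c1 c2
  push_cast at c0 c1 c2
  have : (48 : ℤ) * f' = 0 := by linear_combination c0 - 2 * c1 + c2
  omega

end Pool.Agent.MP_5c28a4_al.H74
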